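import Mathlib

/-!
MP_973d57_co.  Maximal isotropic subspaces of odd-dimensional Hermitian spaces give valuated
Δ-matroids, over every valued field (in particular in residue characteristic 2).
-/

namespace Pool.Agent.Results.MP_973d57_co.HermitianDelta

open Matrix

/-! ### The combinatorial side -/

/-- Indicator vector of a subset of `[n]`. -/
def ind {n : ℕ} (X : Finset (Fin n)) : Fin n → ℝ := fun i => if i ∈ X then 1 else 0

/-- `F` is the set of lifted points of a lower face for the height function `p`: for some affine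
functional `φ(x) = c + ⟨u, x⟩` with `φ ≤ p` everywhere, `F` is the (nonempty) set where `φ = p`.
The cells of the regular subdivision induced by `p` are the convex hulls of `ind '' F`. -/
def IsCell {n : ℕ} (p : Finset (Fin n) → WithTop ℝ) (F : Set (Finset (Fin n))) : Prop :=
  F.Nonempty ∧ ∃ (c : ℝ) (u : Fin n → ℝ),
    (∀ X, ((c + ∑ i ∈ X, u i : ℝ) : WithTop ℝ) ≤ p X) ∧
    F = {X | p X = ((c + ∑ i ∈ X, u i : ℝ) : WithTop ℝ)}

/-- The allowed edge directions `e_i`, `e_i + e_j`, `e_i - e_j` (`i ≠ j`), up to sign. -/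
def IsDirection {n : ℕ} (v : Fin n → ℝ) : Prop :=
  (∃ i, v = Pi.single i 1) ∨
  (∃ i j, i ≠ j ∧ (v = Pi.single i 1 + Pi.single j 1 ∨ v = Pi.single i 1 - Pi.single j 1))

/-- `p` is a valuated Δ-matroid: every edge (one-dimensional cell) of the regular subdivision
induced by `p` is parallel to some `e_i` or `e_i ± e_j`. -/
def IsValuatedDeltaMatroid {n : ℕ} (p : Finset (Fin n) → WithTop ℝ) : Prop :=
  ∀ F, IsCell p F → Module.finrank ℝ (vectorSpan ℝ (ind '' F)) = 1 →
    ∃ v, IsDirection v ∧ vectorSpan ℝ (ind '' F) = Submodule.span ℝ {v}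

/-! ### The algebraic side -/

/-- Index set of the fixed basis `e_1,…,e_n,f_1,…,f_n,g`. -/
abbrev Idx (n : ℕ) : Type := (Fin n ⊕ Fin n) ⊕ Unit

def eI {n : ℕ} (i : Fin n) : Idx n := Sum.inl (Sum.inl i)
def fI {n : ℕ} (i : Fin n) : Idx n := Sum.inl (Sum.inr i)
def gI {n : ℕ} : Idx n := Sum.inr ()

/-- `b` is a Hermitian form with respect to the involution `σ`. -/
structure IsHermitianForm {K V : Type*} [Field K] [AddCommGroup V] [Module K V]
    (σ : K ≃+* K) (b : V → V → K) : Prop where
  add_left : ∀ x y z, b (x + y) z = b x z + b y z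
  add_right : ∀ x y z, b x (y + z) = b x y + b x z
  smul_left : ∀ (c : K) x y, b (c • x) y = c * b x y
  smul_right : ∀ (c : K) x y, b x (c • y) = σ c * b x y
  symm : ∀ x y, b x y = σ (b y x)

/-- The basis `e_i, f_i, g` is as in the problem: `e_i`, `f_i` isotropic, `b(e_i,f_i) = 1`, the
planes `⟨e_i,f_i⟩` pairwise orthogonal and orthogonal to `g`, and `b(g,g) = α ≠ 0`. -/
structure IsWittBasis {K V : Type*} [Field K] [AddCommGroup V] [Module K V] {n : ℕ}
    (b : V → V → K) (B : Module.Basis (Idx n) K V) (α : K) : Prop where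
  ee : ∀ i j, b (B (eI i)) (B (eI j)) = 0
  ff : ∀ i j, b (B (fI i)) (B (fI j)) = 0
  ef : ∀ i j, b (B (eI i)) (B (fI j)) = if i = j then 1 else 0
  fe : ∀ i j, b (B (fI i)) (B (eI j)) = if i = j then 1 else 0
  eg : ∀ i, b (B (eI i)) (B gI) = 0
  ge : ∀ i, b (B gI) (B (eI i)) = 0
  fg : ∀ i, b (B (fI i)) (B gI) = 0
  gf : ∀ i, b (B gI) (B (fI i)) = 0
  gg : b (B gI) (B gI) = α
  ne : α ≠ 0

/-- The column chosen for `i`: the `e_i` column if `i ∈ S`, the `f_i` column if `i ∉ S`. -/
def col {n : ℕ} (S : Finset (Fin n)) (i : Fin n) : Idx n := if i ∈ S then eI i else fI i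

/-- `p_S(L)`: valuation of the maximal minor on the columns `{e_i : i ∈ S} ∪ {f_i : i ∉ S}` of
the matrix whose rows are the coordinates of the basis `R` of `L`. -/
noncomputable def pFun {K V : Type*} [Field K] [AddCommGroup V] [Module K V] {n : ℕ}
    (ν : AddValuation K (WithTop ℝ)) (B : Module.Basis (Idx n) K V) {L : Submodule K V}
    (R : Module.Basis (Fin n) K L) (S : Finset (Fin n)) : WithTop ℝ :=
  ν (Matrix.det (Matrix.of fun i j : Fin n => B.repr (R i : V) (col S j)))

/-! ### Auxiliary facts -/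

theorem lt_add_aux {a b : ℝ} {x y : WithTop ℝ} (hx : (a : WithTop ℝ) < x)
    (hy : (b : WithTop ℝ) < y) : ((a + b : ℝ) : WithTop ℝ) < x + y := by
  induction x using WithTop.recTopCoe with
  | top => simp only [top_add]; exact WithTop.coe_lt_top _
  | coe x =>
    induction y using WithTop.recTopCoe with
    | top => simp only [add_top]; exact WithTop.coe_lt_top _
    | coe y =>
      rw [← WithTop.coe_add, WithTop.coe_lt_coe]
      exact add_lt_add (WithTop.coe_lt_coe.1 hx) (WithTop.coe_lt_coe.1 hy)

section val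

variable {K : Type*} [Field K] (ν : AddValuation K (WithTop ℝ))

theorem exists_real {c : K} (hc : c ≠ 0) : ∃ x : ℝ, ν c = (x : WithTop ℝ) := by
  have : ν c ≠ ⊤ := (AddValuation.ne_top_iff ν).2 hc
  exact ⟨(ν c).untop this, (WithTop.coe_untop _ _).symm⟩

/-- the key inequality on the entries of the matrix `C` -/
theorem entry_bound {n : ℕ} (σ : K ≃+* K) (hν : ∀ a, ν (σ a) = ν a)
    (C : Matrix (Fin n) (Fin n) K) (w : Fin n → K) (α : K)
    (hC : ∀ i j, C i j + σ (C j i) = - (α * w i * σ (w j)))
    (D : Finset (Fin n)) (ε : Fin n → ℝ)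
    (h1 : ∀ i ∈ D, (ε i : WithTop ℝ) < ν (C i i))
    (h2 : ∀ i ∈ D, ∀ j ∈ D, i ≠ j →
      ((ε i + ε j : ℝ) : WithTop ℝ) < ν (C i i * C j j - C i j * C j i))
    (i j : Fin n) (hi : i ∈ D) (hj : j ∈ D) (x : ℝ) (hx : ν (C i j) = (x : WithTop ℝ)) :
    ε i + ε j < 2 * x := by
  by_cases hij : i = j
  · subst hij
    have := h1 i hi
    rw [hx, WithTop.coe_lt_coe] at this
    linarith
  by_contra hcon
  push Not at hcon
  -- the product `C_ij C_ji` has large valuation
  have hprod : ((ε i + ε j : ℝ) : WithTop ℝ) < ν (C i j * C j i) := by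
    have e1 : ((ε i + ε j : ℝ) : WithTop ℝ) < ν (C i i * C j j) := by
      rw [AddValuation.map_mul]; exact lt_add_aux (h1 i hi) (h1 j hj)
    have e2 := h2 i hi j hj hij
    have e3 : C i j * C j i = C i i * C j j + (-(C i i * C j j - C i j * C j i)) := by ring
    rw [e3]
    refine AddValuation.map_lt_add ν e1 ?_
    rwa [AddValuation.map_neg]
  -- hence `ν C_ji > ν C_ij`
  have hlt : ν (C i j) < ν (σ (C j i)) := by
    rw [hν, hx]
    by_cases h0 : C j i = 0
    · rw [h0, AddValuation.map_zero]; exact WithTop.coe_lt_top _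
    · obtain ⟨y, hy⟩ := exists_real ν h0
      rw [hy, WithTop.coe_lt_coe]
      rw [AddValuation.map_mul, hx, hy, ← WithTop.coe_add, WithTop.coe_lt_coe] at hprod
      linarith
  have hγ : ν (α * w i * σ (w j)) = (x : WithTop ℝ) := by
    rw [← AddValuation.map_neg, ← hC i j, AddValuation.map_add_eq_of_lt_left ν hlt, hx]
  have hγ0 : α * w i * σ (w j) ≠ 0 := by
    intro h0; rw [h0, AddValuation.map_zero] at hγ; exact WithTop.top_ne_coe hγ
  have hα : α ≠ 0 := fun h => hγ0 (by rw [h]; ring)
  have hwi : w i ≠ 0 := fun h => hγ0 (by rw [h]; ring)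
  have hwj : w j ≠ 0 := fun h => hγ0 (by rw [h, map_zero]; ring)
  obtain ⟨a, ha⟩ := exists_real ν hα
  obtain ⟨p, hp⟩ := exists_real ν hwi
  obtain ⟨q, hq⟩ := exists_real ν hwj
  have key : ∀ k ∈ D, ∀ r : ℝ, ν (w k) = (r : WithTop ℝ) → ε k < a + r + r := by
    intro k hk r hr
    have e1 : (ε k : WithTop ℝ) < ν (C k k + σ (C k k)) :=
      AddValuation.map_lt_add ν (h1 k hk) (by rw [hν]; exact h1 k hk)
    rw [hC k k, AddValuation.map_neg, AddValuation.map_mul, AddValuation.map_mul, hν, ha, hr,
      ← WithTop.coe_add, ← WithTop.coe_add, WithTop.coe_lt_coe] at e1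
    exact e1
  have k1 := key i hi p hp
  have k2 := key j hj q hq
  rw [AddValuation.map_mul, AddValuation.map_mul, hν, ha, hp, hq, ← WithTop.coe_add,
    ← WithTop.coe_add, WithTop.coe_inj] at hγ
  linarith

end val

/-- the matrix with the columns in `Y` taken from `C`, the others from the identity -/
def mix {K : Type*} [Field K] {n : ℕ} (C : Matrix (Fin n) (Fin n) K) (Y : Finset (Fin n)) :
    Matrix (Fin n) (Fin n) K := fun i j => if j ∈ Y then C i j else if i = j then 1 else 0

theorem mix_prod_zero {K : Type*} [Field K] {n : ℕ} (C : Matrix (Fin n) (Fin n) K)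
    (Y : Finset (Fin n)) (s : Equiv.Perm (Fin n)) (k : Fin n) (hk : k ∉ Y) (hs : s k ≠ k) :
    ∏ j, mix C Y (s j) j = 0 := by
  refine Finset.prod_eq_zero (Finset.mem_univ k) ?_
  simp [mix, hk, hs]

theorem mix_det_one {K : Type*} [Field K] {n : ℕ} (C : Matrix (Fin n) (Fin n) K) (i : Fin n) :
    (mix C {i}).det = C i i := by
  classical
  rw [Matrix.det_apply, Finset.sum_eq_single (1 : Equiv.Perm (Fin n))]
  · simp only [Equiv.Perm.sign_one, one_smul, Equiv.Perm.one_apply]
    rw [Finset.prod_eq_single i]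
    · simp [mix]
    · intro k _ hk; simp [mix, hk]
    · simp
  · intro s _ hs
    have : ∃ k, k ≠ i ∧ s k ≠ k := by
      by_contra hcon
      push Not at hcon
      apply hs
      ext k
      by_cases hki : k = i
      · subst hki
        by_contra hne
        have h1 : s k ≠ k := fun h => hne (by rw [h]; rfl)
        have h2 := hcon (s k) h1
        exact h1 (s.injective h2)
      · rw [hcon k hki]; rfl
    obtain ⟨k, hk1, hk2⟩ := this
    rw [mix_prod_zero C {i} s k (by simpa using hk1) hk2, smul_zero]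
  · simp

theorem mix_det_two {K : Type*} [Field K] {n : ℕ} (C : Matrix (Fin n) (Fin n) K) (i j : Fin n)
    (hij : i ≠ j) : (mix C {i, j}).det = C i i * C j j - C i j * C j i := by
  classical
  rw [Matrix.det_apply]
  rw [Finset.sum_eq_add (1 : Equiv.Perm (Fin n)) (Equiv.swap i j)]
  · simp only [Equiv.Perm.sign_one, one_smul, Equiv.Perm.one_apply, Equiv.Perm.sign_swap hij]
    rw [Finset.prod_eq_mul i j hij, Finset.prod_eq_mul i j hij]
    · simp [mix, Equiv.swap_apply_left, Equiv.swap_apply_right]
      ring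
    · intro c _ hc
      simp [mix, hc.1, hc.2, Equiv.swap_apply_of_ne_of_ne hc.1 hc.2]
    · simp
    · simp
    · intro c _ hc; simp [mix, hc.1, hc.2]
    · simp
    · simp
  · intro h
    have := congrArg (fun s : Equiv.Perm (Fin n) => s i) h
    simp at this
    exact hij this
  · intro s _ hs
    have : ∃ k, k ∉ ({i, j} : Finset (Fin n)) ∧ s k ≠ k := by
      by_contra hcon
      push Not at hcon
      have hfix : ∀ k, k ≠ i → k ≠ j → s k = k := fun k h1 h2 => hcon k (by simp [h1, h2])
      have hsi : s i = i ∨ s i = j := by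
        by_contra h
        push Not at h
        exact h.1 (s.injective (hfix (s i) h.1 h.2))
      have hsj : s j = i ∨ s j = j := by
        by_contra h
        push Not at h
        exact h.2 (s.injective (hfix (s j) h.1 h.2))
      rcases hsi with hsi | hsi
      · have hsj' : s j = j := by
          rcases hsj with h | h
          · exact absurd (s.injective (hsi.trans h.symm)) hij
          · exact h
        apply hs.1
        ext k
        by_cases h1 : k = i
        · rw [h1, hsi]; rfl
        · by_cases h2 : k = j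
          · rw [h2, hsj']; rfl
          · rw [hfix k h1 h2]; rfl
      · have hsj' : s j = i := by
          rcases hsj with h | h
          · exact h
          · exact absurd (s.injective (hsi.trans h.symm)) hij
        apply hs.2
        ext k
        by_cases h1 : k = i
        · rw [h1, hsi, Equiv.swap_apply_left]
        · by_cases h2 : k = j
          · rw [h2, hsj', Equiv.swap_apply_right]
          · rw [hfix k h1 h2, Equiv.swap_apply_of_ne_of_ne h1 h2]
    obtain ⟨k, hk1, hk2⟩ := this
    rw [mix_prod_zero C _ s k hk1 hk2, smul_zero]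
  · simp
  · simp

theorem mix_det_bound {K : Type*} [Field K] (ν : AddValuation K (WithTop ℝ)) {n : ℕ}
    (C : Matrix (Fin n) (Fin n) K) (D : Finset (Fin n)) (hD : D.Nonempty) (ε : Fin n → ℝ)
    (h : ∀ i ∈ D, ∀ j ∈ D, ∀ x : ℝ, ν (C i j) = (x : WithTop ℝ) → ε i + ε j < 2 * x) :
    ((∑ i ∈ D, ε i : ℝ) : WithTop ℝ) < ν (mix C D).det := by
  classical
  rw [Matrix.det_apply]
  refine AddValuation.map_lt_sum ν WithTop.coe_ne_top ?_
  intro s _
  have hsign : ∀ z : K, ν (Equiv.Perm.sign s • z) = ν z := by
    intro z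
    rcases Int.units_eq_one_or (Equiv.Perm.sign s) with h | h
    · rw [h, one_smul]
    · rw [h]; simp [AddValuation.map_neg]
  rw [hsign]
  by_cases hfix : ∃ k, k ∉ D ∧ s k ≠ k
  · obtain ⟨k, hk1, hk2⟩ := hfix
    rw [mix_prod_zero C D s k hk1 hk2, AddValuation.map_zero]
    exact WithTop.coe_lt_top _
  push Not at hfix
  have hsD : ∀ k ∈ D, s k ∈ D := by
    intro k hk
    by_contra hcon
    have := s.injective (hfix (s k) hcon)
    rw [this] at hcon
    exact hcon hk
  have hprod : ∏ j, mix C D (s j) j = ∏ j ∈ D, C (s j) j := by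
    rw [← Finset.prod_subset (Finset.subset_univ D)]
    · exact Finset.prod_congr rfl (fun j hj => by simp [mix, hj])
    · intro j _ hj
      simp [mix, hj, hfix j hj]
  rw [hprod]
  by_cases hz : ∃ j ∈ D, C (s j) j = 0
  · obtain ⟨j, hj, hj0⟩ := hz
    have h0 : ∏ j ∈ D, C (s j) j = 0 := Finset.prod_eq_zero hj hj0
    rw [h0, AddValuation.map_zero]
    exact WithTop.coe_lt_top _
  push Not at hz
  have hreal : ∀ j : Fin n, ∃ x : ℝ, j ∈ D → ν (C (s j) j) = (x : WithTop ℝ) := by
    intro j
    by_cases hj : j ∈ D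
    · obtain ⟨x, hx⟩ := exists_real ν (hz j hj)
      exact ⟨x, fun _ => hx⟩
    · exact ⟨0, fun h => absurd h hj⟩
  choose x hx using hreal
  have hsum : ν (∏ j ∈ D, C (s j) j) = ((∑ j ∈ D, x j : ℝ) : WithTop ℝ) := by
    have hgen : ∀ E : Finset (Fin n), E ⊆ D →
        ν (∏ j ∈ E, C (s j) j) = ((∑ j ∈ E, x j : ℝ) : WithTop ℝ) := by
      intro E
      induction E using Finset.induction_on with
      | empty => intro _; simp [AddValuation.map_one]
      | insert a E ha ih =>
        intro hE
        rw [Finset.prod_insert ha, Finset.sum_insert ha, AddValuation.map_mul,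
          hx a (hE (Finset.mem_insert_self a E)),
          ih (fun y hy => hE (Finset.mem_insert_of_mem hy)), ← WithTop.coe_add]
    exact hgen D (Finset.Subset.refl D)
  rw [hsum, WithTop.coe_lt_coe]
  have h2 : ∑ j ∈ D, (ε (s j) + ε j) < ∑ j ∈ D, 2 * x j :=
    Finset.sum_lt_sum_of_nonempty hD
      (fun j hj => h (s j) (hsD j hj) j hj (x j) (hx j hj))
  have h3 : ∑ j ∈ D, ε (s j) = ∑ j ∈ D, ε j := by
    have himg : D.image s = D := by
      apply Finset.eq_of_subset_of_card_le
      · intro y hy
        obtain ⟨k, hk, rfl⟩ := Finset.mem_image.1 hy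
        exact hsD k hk
      · rw [Finset.card_image_of_injective _ s.injective]
    conv_rhs => rw [← himg]
    rw [Finset.sum_image (fun a _ b _ hab => s.injective hab)]
  rw [Finset.sum_add_distrib, h3, ← Finset.mul_sum] at h2
  linarith

/-! ### Linear algebra -/

section alg

variable {K V : Type*} [Field K] [AddCommGroup V] [Module K V] {n : ℕ}

theorem form_expand {σ : K ≃+* K} {b : V → V → K} (hb : IsHermitianForm σ b)
    {B : Module.Basis (Idx n) K V} {α : K} (hB : IsWittBasis b B α) (x y : V) :
    b x y = ∑ k, (B.repr x (eI k) * σ (B.repr y (fI k)) + B.repr x (fI k) * σ (B.repr y (eI k)))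
      + B.repr x gI * σ (B.repr y gI) * α := by
  classical
  have hl : ∀ (c : Idx n → K) (z : V), b (∑ k, c k • B k) z = ∑ k, c k * b (B k) z := by
    intro c z
    let φ : V →+ K := AddMonoidHom.mk' (fun x => b x z) (fun x y => hb.add_left x y z)
    change φ (∑ k, c k • B k) = _
    rw [map_sum]
    exact Finset.sum_congr rfl (fun k _ => hb.smul_left _ _ _)
  have hr : ∀ (c : Idx n → K) (z : V), b z (∑ k, c k • B k) = ∑ k, σ (c k) * b z (B k) := by
    intro c z
    let φ : V →+ K := AddMonoidHom.mk' (fun x => b z x) (fun x y => hb.add_right z x y)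
    change φ (∑ k, c k • B k) = _
    rw [map_sum]
    exact Finset.sum_congr rfl (fun k _ => hb.smul_right _ _ _)
  conv_lhs => rw [← B.sum_repr x, ← B.sum_repr y]
  rw [hl]
  simp only [hr]
  simp only [Fintype.sum_sum_type, Finset.univ_unique, Finset.sum_singleton]
  change (∑ i, (B.repr x (eI i)) * ((∑ j, σ (B.repr y (eI j)) * b (B (eI i)) (B (eI j))
      + ∑ j, σ (B.repr y (fI j)) * b (B (eI i)) (B (fI j)))
      + σ (B.repr y gI) * b (B (eI i)) (B gI))
    + ∑ i, (B.repr x (fI i)) * ((∑ j, σ (B.repr y (eI j)) * b (B (fI i)) (B (eI j))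
      + ∑ j, σ (B.repr y (fI j)) * b (B (fI i)) (B (fI j)))
      + σ (B.repr y gI) * b (B (fI i)) (B gI)))
    + (B.repr x gI) * ((∑ j, σ (B.repr y (eI j)) * b (B gI) (B (eI j))
      + ∑ j, σ (B.repr y (fI j)) * b (B gI) (B (fI j)))
      + σ (B.repr y gI) * b (B gI) (B gI)) = _
  simp only [hB.ee, hB.ff, hB.ef, hB.fe, hB.eg, hB.ge, hB.fg, hB.gf, hB.gg, mul_zero,
    Finset.sum_const_zero, zero_add, add_zero, mul_ite, mul_one, Finset.sum_ite_eq,
    Finset.mem_univ, if_true]
  rw [Finset.sum_add_distrib]
  ring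

/-- the column not chosen -/
def opp (S : Finset (Fin n)) (i : Fin n) : Idx n := if i ∈ S then fI i else eI i

theorem col_symmDiff (S Y : Finset (Fin n)) (j : Fin n) :
    col (symmDiff S Y) j = if j ∈ Y then opp S j else col S j := by
  unfold col opp
  by_cases h1 : j ∈ S <;> by_cases h2 : j ∈ Y <;> simp [Finset.mem_symmDiff, h1, h2]

/-- In the chart at `S` the subspace is described by a matrix `C` and a vector `w`. -/
theorem chart {σ : K ≃+* K} {b : V → V → K} (hb : IsHermitianForm σ b)
    (ν : AddValuation K (WithTop ℝ))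
    {B : Module.Basis (Idx n) K V} {α : K} (hB : IsWittBasis b B α) {L : Submodule K V}
    (hL : ∀ x ∈ L, ∀ y ∈ L, b x y = 0) (R : Module.Basis (Fin n) K L) (S : Finset (Fin n))
    (hS : Matrix.det (Matrix.of fun i j : Fin n => B.repr (R i : V) (col S j)) ≠ 0) :
    ∃ (C : Matrix (Fin n) (Fin n) K) (w : Fin n → K),
      (∀ i j, C i j + σ (C j i) = - (α * w i * σ (w j))) ∧
      ∀ Y, pFun ν B R (symmDiff S Y) = pFun ν B R S + ν (mix C Y).det := by
  classical
  set A : Matrix (Fin n) (Fin n) K := Matrix.of fun i j : Fin n => B.repr (R i : V) (col S j)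
    with hA
  have hunit : IsUnit A.det := isUnit_iff_ne_zero.2 hS
  let r : Fin n → V := fun i => ∑ j, A⁻¹ i j • (R j : V)
  have hr : ∀ i, r i ∈ L := fun i =>
    Submodule.sum_mem _ (fun j _ => Submodule.smul_mem _ _ (R j).2)
  have hrepr : ∀ i k, B.repr (r i) k = ∑ j, A⁻¹ i j * B.repr (R j : V) k := by
    intro i k
    simp only [r, map_sum, map_smul, Finsupp.coe_finsetSum, Finset.sum_apply, Finsupp.coe_smul,
      Pi.smul_apply, smul_eq_mul]
  have hcol : ∀ i j, B.repr (r i) (col S j) = if i = j then 1 else 0 := by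
    intro i j
    rw [hrepr]
    have := congrFun (congrFun (Matrix.nonsing_inv_mul A hunit) i) j
    rw [Matrix.mul_apply, Matrix.one_apply] at this
    exact this
  refine ⟨fun i j => B.repr (r i) (opp S j), fun i => B.repr (r i) gI, ?_, ?_⟩
  · intro i j
    have h0 := hL _ (hr i) _ (hr j)
    rw [form_expand hb hB] at h0
    have hterm : ∀ k, (B.repr (r i) (eI k) * σ (B.repr (r j) (fI k))
        + B.repr (r i) (fI k) * σ (B.repr (r j) (eI k)))
        = (if i = k then σ (B.repr (r j) (opp S k)) else 0)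
          + (if j = k then B.repr (r i) (opp S k) else 0) := by
      intro k
      have e1 := hcol i k
      have e2 := hcol j k
      by_cases hk : k ∈ S
      · simp only [col, opp, hk, if_true] at e1 e2 ⊢
        rw [e1, e2]
        by_cases h1 : i = k <;> by_cases h2 : j = k <;> simp [h1, h2]
      · simp only [col, opp, hk, if_false] at e1 e2 ⊢
        rw [e1, e2]
        by_cases h1 : i = k <;> by_cases h2 : j = k <;> simp [h1, h2] <;> ring
    rw [Finset.sum_congr rfl (fun k _ => hterm k), Finset.sum_add_distrib] at h0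
    simp only [Finset.sum_ite_eq, Finset.mem_univ, if_true] at h0
    linear_combination h0
  · intro Y
    have hmul : (Matrix.of fun i j : Fin n => B.repr (R i : V) (col (symmDiff S Y) j))
        = A * mix (fun i j => B.repr (r i) (opp S j)) Y := by
      ext i j
      rw [Matrix.mul_apply]
      have hm : ∀ k, mix (fun i j => B.repr (r i) (opp S j)) Y k j
          = B.repr (r k) (col (symmDiff S Y) j) := by
        intro k
        rw [col_symmDiff]
        unfold mix
        by_cases hj : j ∈ Y
        · simp [hj]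
        · simp only [hj, if_false]
          exact (hcol k j).symm
      rw [Finset.sum_congr rfl (fun k _ => by rw [hm k])]
      simp only [hrepr]
      have hAA : ∀ l, ∑ k, A i k * A⁻¹ k l = if i = l then 1 else 0 := by
        intro l
        have := congrFun (congrFun (Matrix.mul_nonsing_inv A hunit) i) l
        rw [Matrix.mul_apply, Matrix.one_apply] at this
        exact this
      calc (Matrix.of fun i j : Fin n => B.repr (R i : V) (col (symmDiff S Y) j)) i j
          = ∑ l, (if i = l then 1 else 0) * B.repr (R l : V) (col (symmDiff S Y) j) := by simp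
        _ = ∑ l, (∑ k, A i k * A⁻¹ k l) * B.repr (R l : V) (col (symmDiff S Y) j) := by
            simp only [hAA]
        _ = ∑ l, ∑ k, A i k * (A⁻¹ k l * B.repr (R l : V) (col (symmDiff S Y) j)) := by
            refine Finset.sum_congr rfl (fun l _ => ?_)
            rw [Finset.sum_mul]
            exact Finset.sum_congr rfl (fun k _ => by ring)
        _ = ∑ k, A i k * ∑ l, A⁻¹ k l * B.repr (R l : V) (col (symmDiff S Y) j) := by
            rw [Finset.sum_comm]
            exact Finset.sum_congr rfl (fun k _ => by rw [Finset.mul_sum])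
    unfold pFun
    rw [hmul, Matrix.det_mul, AddValuation.map_mul]

end alg

/-! ### Cells -/

theorem ind_injective {n : ℕ} {X Y : Finset (Fin n)} (h : ind X = ind Y) : X = Y := by
  ext i
  have := congrFun h i
  unfold ind at this
  by_cases h1 : i ∈ X <;> by_cases h2 : i ∈ Y <;> simp_all

theorem sum_symmDiff {n : ℕ} (u : Fin n → ℝ) (S Y : Finset (Fin n)) :
    ∑ i ∈ symmDiff S Y, u i = ∑ i ∈ S, u i + ∑ i ∈ Y, (if i ∈ S then -u i else u i) := by
  classical
  have e : ∀ (Z : Finset (Fin n)) (f : Fin n → ℝ), ∑ i ∈ Z, f i = ∑ i, if i ∈ Z then f i else 0 := by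
    intro Z f; simp
  rw [e, e S, e Y, ← Finset.sum_add_distrib]
  refine Finset.sum_congr rfl (fun i _ => ?_)
  by_cases h1 : i ∈ S <;> by_cases h2 : i ∈ Y <;> simp [Finset.mem_symmDiff, h1, h2]

/-- The direction statement for an edge, once the symmetric difference is small. -/
theorem direction_of_small {n : ℕ} (S T : Finset (Fin n)) (hST : S ≠ T)
    (hcard : (symmDiff S T).card ≤ 2) :
    ∃ v, IsDirection v ∧ Submodule.span ℝ {ind T - ind S} = Submodule.span ℝ {v} := by
  classical
  have hval : ∀ i, (ind T - ind S) i = 0 ∨ (ind T - ind S) i = 1 ∨ (ind T - ind S) i = -1 := by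
    intro i
    unfold ind
    by_cases h1 : i ∈ S <;> by_cases h2 : i ∈ T <;> simp [h1, h2]
  have hne0 : ∀ i, i ∈ symmDiff S T → (ind T - ind S) i ≠ 0 := by
    intro i hi
    rw [Finset.mem_symmDiff] at hi
    unfold ind
    rcases hi with ⟨h1, h2⟩ | ⟨h1, h2⟩ <;> simp [h1, h2]
  have hz : ∀ i, i ∉ symmDiff S T → (ind T - ind S) i = 0 := by
    intro i hi
    rw [Finset.mem_symmDiff] at hi
    unfold ind
    by_cases h1 : i ∈ S <;> by_cases h2 : i ∈ T <;> simp_all
  have hpos : 0 < (symmDiff S T).card := by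
    rw [Finset.card_pos, Finset.nonempty_iff_ne_empty]
    intro h
    exact hST (symmDiff_eq_bot.1 h)
  have hcases : (symmDiff S T).card = 1 ∨ (symmDiff S T).card = 2 := by omega
  rcases hcases with h1 | h2
  · obtain ⟨i, hi⟩ := Finset.card_eq_one.1 h1
    have hv : ind T - ind S = (ind T - ind S) i • (Pi.single i (1 : ℝ) : Fin n → ℝ) := by
      funext k
      by_cases hk : k = i
      · subst hk; simp
      · have : (ind T - ind S) k = 0 := hz k (by rw [hi]; simpa using hk)
        rw [this]; simp [hk]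
    have hu : IsUnit ((ind T - ind S) i) := isUnit_iff_ne_zero.2 (hne0 i (by rw [hi]; simp))
    refine ⟨Pi.single i 1, Or.inl ⟨i, rfl⟩, ?_⟩
    rw [hv]
    exact Submodule.span_singleton_smul_eq hu _
  · obtain ⟨i, j, hij, hD⟩ := Finset.card_eq_two.1 h2
    have hi0 := hne0 i (by rw [hD]; simp)
    have hj0 := hne0 j (by rw [hD]; simp)
    have hk0 : ∀ k, k ≠ i → k ≠ j → (ind T - ind S) k = 0 := fun k h1 h2 =>
      hz k (by rw [hD]; simp [h1, h2])
    have hu : IsUnit ((ind T - ind S) i) := isUnit_iff_ne_zero.2 hi0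
    by_cases hsame : (ind T - ind S) i = (ind T - ind S) j
    · have hv : ind T - ind S = (ind T - ind S) i •
          ((Pi.single i (1 : ℝ) + Pi.single j 1 : Fin n → ℝ)) := by
        funext k
        by_cases hk : k = i
        · subst hk; simp [Pi.single_apply, hij]
        · by_cases hk' : k = j
          · subst hk'
            rw [hsame]; simp [Pi.single_apply, hk]
          · rw [hk0 k hk hk']; simp [Pi.single_apply, hk, hk']
      refine ⟨_, Or.inr ⟨i, j, hij, Or.inl rfl⟩, ?_⟩
      rw [hv]
      exact Submodule.span_singleton_smul_eq hu _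
    · have hopp : (ind T - ind S) j = - (ind T - ind S) i := by
        rcases hval i with h | h | h <;> rcases hval j with h' | h' | h' <;>
          simp_all
      have hv : ind T - ind S = (ind T - ind S) i •
          ((Pi.single i (1 : ℝ) - Pi.single j 1 : Fin n → ℝ)) := by
        funext k
        by_cases hk : k = i
        · subst hk; simp [Pi.single_apply, hij]
        · by_cases hk' : k = j
          · subst hk'
            rw [hopp]; simp [Pi.single_apply, hk]
          · rw [hk0 k hk hk']; simp [Pi.single_apply, hk, hk']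
      refine ⟨_, Or.inr ⟨i, j, hij, Or.inr rfl⟩, ?_⟩
      rw [hv]
      exact Submodule.span_singleton_smul_eq hu _

/-- **Q1 (positive answer), in every residue characteristic.** -/
theorem result {K V : Type*} [Field K] [AddCommGroup V] [Module K V] (n : ℕ)
    (σ : K ≃+* K) (_hσ : ∀ a, σ (σ a) = a) (ν : AddValuation K (WithTop ℝ))
    (hν : ∀ a, ν (σ a) = ν a) (b : V → V → K) (hb : IsHermitianForm σ b)
    (B : Module.Basis (Idx n) K V) (α : K) (hB : IsWittBasis b B α)
    (L : Submodule K V) (hL : ∀ x ∈ L, ∀ y ∈ L, b x y = 0) (R : Module.Basis (Fin n) K L) :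
    IsValuatedDeltaMatroid (pFun ν B R) := by
  classical
  rintro F ⟨hFne, c, u, hle, hF⟩ hfin
  -- two distinct points in `F`
  have hnt : ∃ S ∈ F, ∃ T ∈ F, S ≠ T := by
    by_contra hcon
    push Not at hcon
    have hsub : (ind '' F).Subsingleton := by
      rintro _ ⟨X, hX, rfl⟩ _ ⟨Y, hY, rfl⟩
      rw [hcon X hX Y hY]
    rw [vectorSpan_of_subsingleton ℝ hsub] at hfin
    simp at hfin
  obtain ⟨S, hSF, T, hTF, hST⟩ := hnt
  set W := vectorSpan ℝ (ind '' F) with hW
  have hv0mem : ind T - ind S ∈ W :=
    vsub_mem_vectorSpan ℝ (Set.mem_image_of_mem _ hTF) (Set.mem_image_of_mem _ hSF)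
  have hv0ne : ind T - ind S ≠ 0 := by
    intro h
    exact hST (ind_injective (sub_eq_zero.1 h)).symm
  have hmult : ∀ y ∈ W, ∃ t : ℝ, t • (ind T - ind S) = y := by
    intro y hy
    have hnz : (⟨ind T - ind S, hv0mem⟩ : W) ≠ 0 := by
      intro h; exact hv0ne (congrArg Subtype.val h)
    obtain ⟨t, ht⟩ := (finrank_eq_one_iff_of_nonzero' _ hnz).1 hfin ⟨y, hy⟩
    exact ⟨t, congrArg Subtype.val ht⟩
  have hWspan : W = Submodule.span ℝ {ind T - ind S} := by
    apply le_antisymm
    · intro y hy
      obtain ⟨t, rfl⟩ := hmult y hy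
      exact Submodule.mem_span_singleton.2 ⟨t, rfl⟩
    · rw [Submodule.span_le]
      simpa using hv0mem
  have honly : ∀ X ∈ F, X = S ∨ X = T := by
    intro X hX
    obtain ⟨t, ht⟩ := hmult _ (vsub_mem_vectorSpan ℝ (Set.mem_image_of_mem ind hX)
      (Set.mem_image_of_mem ind hSF))
    have ht' : ∀ i, t * (ind T i - ind S i) = ind X i - ind S i := fun i => congrFun ht i
    have hDne : (symmDiff S T).Nonempty := by
      rw [Finset.nonempty_iff_ne_empty]
      intro h
      exact hST (symmDiff_eq_bot.1 h)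
    obtain ⟨i, hi⟩ := hDne
    have hti := ht' i
    have ht01 : t = 0 ∨ t = 1 := by
      rw [Finset.mem_symmDiff] at hi
      unfold ind at hti
      rcases hi with ⟨h1, h2⟩ | ⟨h1, h2⟩ <;> by_cases h3 : i ∈ X <;> simp [h1, h2, h3] at hti
      · exact Or.inl hti
      · right; linarith
      · exact Or.inr hti
      · exact Or.inl hti
    rcases ht01 with h | h
    · left
      apply ind_injective
      funext k
      have := ht' k
      rw [h, zero_mul] at this
      linarith
    · right
      apply ind_injective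
      funext k
      have := ht' k
      rw [h, one_mul] at this
      linarith
  -- the symmetric difference has at most two elements
  have hsmall : (symmDiff S T).card ≤ 2 := by
    by_contra hbig
    push Not at hbig
    have hpS : pFun ν B R S = ((c + ∑ i ∈ S, u i : ℝ) : WithTop ℝ) := by
      have := hSF; rw [hF] at this; exact this
    have hpT : pFun ν B R T = ((c + ∑ i ∈ T, u i : ℝ) : WithTop ℝ) := by
      have := hTF; rw [hF] at this; exact this
    have hdet : Matrix.det (Matrix.of fun i j : Fin n => B.repr (R i : V) (col S j)) ≠ 0 := by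
      intro h0
      unfold pFun at hpS
      rw [h0, AddValuation.map_zero] at hpS
      exact WithTop.top_ne_coe hpS
    obtain ⟨C, w, hC, hp⟩ := chart hb ν hB hL R S hdet
    let ε : Fin n → ℝ := fun i => if i ∈ S then -u i else u i
    have hbound : ∀ Y : Finset (Fin n), Y.Nonempty → Y.card ≤ 2 → 
        ((∑ i ∈ Y, ε i : ℝ) : WithTop ℝ) < ν (mix C Y).det := by
      intro Y hY1 hY2
      have hXF : symmDiff S Y ∉ F := by
        intro hX
        rcases honly _ hX with h | h
        · rw [symmDiff_eq_left] at h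
          rw [h] at hY1
          simp at hY1
        · have hYD : Y = symmDiff S T := by rw [← h, symmDiff_symmDiff_cancel_left]
          rw [hYD] at hY2
          omega
      have hlt : ((c + ∑ i ∈ symmDiff S Y, u i : ℝ) : WithTop ℝ) < pFun ν B R (symmDiff S Y) := by
        refine lt_of_le_of_ne (hle _) (fun h => hXF ?_)
        rw [hF]; exact h.symm
      rw [hp Y, hpS, sum_symmDiff, ← add_assoc] at hlt
      by_cases h0 : (mix C Y).det = 0
      · rw [h0, AddValuation.map_zero]; exact WithTop.coe_lt_top _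
      · obtain ⟨z, hz⟩ := exists_real ν h0
        rw [hz, ← WithTop.coe_add, WithTop.coe_lt_coe] at hlt
        rw [hz, WithTop.coe_lt_coe]
        have : ∑ i ∈ Y, ε i = ∑ i ∈ Y, (if i ∈ S then -u i else u i) := rfl
        rw [this]
        linarith
    have h1 : ∀ i ∈ symmDiff S T, (ε i : WithTop ℝ) < ν (C i i) := by
      intro i _
      have := hbound {i} (Finset.singleton_nonempty i) (by simp)
      rwa [mix_det_one, Finset.sum_singleton] at this
    have h2 : ∀ i ∈ symmDiff S T, ∀ j ∈ symmDiff S T, i ≠ j →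
        ((ε i + ε j : ℝ) : WithTop ℝ) < ν (C i i * C j j - C i j * C j i) := by
      intro i _ j _ hij
      have := hbound {i, j} ⟨i, by simp⟩ (Finset.card_le_two)
      rwa [mix_det_two C i j hij, Finset.sum_pair hij] at this
    have hfinal := mix_det_bound ν C (symmDiff S T) (Finset.card_pos.1 (by omega)) ε
      (fun i hi j hj x hx => entry_bound ν σ hν C w α hC _ ε h1 h2 i j hi hj x hx)
    have hT := hp (symmDiff S T)
    rw [symmDiff_symmDiff_cancel_left, hpT, hpS] at hT
    have hTsum : ∑ i ∈ T, u i = ∑ i ∈ S, u i + ∑ i ∈ symmDiff S T, ε i := by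
      conv_lhs => rw [← symmDiff_symmDiff_cancel_left S T]
      exact sum_symmDiff u S _
    by_cases h0 : (mix C (symmDiff S T)).det = 0
    · rw [h0, AddValuation.map_zero, add_top] at hT
      exact WithTop.coe_ne_top hT
    · obtain ⟨z, hz⟩ := exists_real ν h0
      rw [hz, ← WithTop.coe_add, WithTop.coe_inj] at hT
      rw [hz, WithTop.coe_lt_coe] at hfinal
      linarith
  obtain ⟨v, hv, hspan⟩ := direction_of_small S T hST hsmall
  exact ⟨v, hv, hWspan.trans hspan⟩

end Pool.Agent.Results.MP_973d57_co.HermitianDelta
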